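import Mathlib
import Pool.Agent.H687.AF.Exist

/-!
# MP_ee1e03_al: the discriminant exponent of the associated form is `1`

`Mon n d` is the set of exponent vectors of degree `d` in `n` variables, so a point
`c : Mon n d → ℂ` is a form `form c = ∑ c_s z^s` of degree `d`, and `MvPolynomial (Mon n d) ℂ` is the
ring of polynomial functions on the space of forms. `grad c j` is the `j`-th partial derivative of
`form c`, `J c` the ideal generated by the partial derivatives, `Hess c` the Hessian determinant,
`NonSing (grad c)` says that the partial derivatives have no common zero except the origin, and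
`mu c i` is the number with `z^i - mu c i * Hess c ∈ J c` (its existence and uniqueness for
nonsingular `c` are `mu_spec` and `mu_eq`).
-/

set_option autoImplicit false

namespace Pool.Agent.Results.MP_ee1e03_al.DiscriminantExponent

open MvPolynomial Pool.Agent.H687.AF

/-- For all `n ≥ 2`, `d ≥ 3`: the discriminant (an irreducible polynomial whose zero set is the set
of degenerate forms) exists, and for every such `Δ` the maximum over `i` of the least integer `p_i`
with `Δ^{p_i} μ_i` polynomial is `1`; equivalently `1` is the least integer `p` for which all
`Δ^p μ_i` are polynomials. -/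
theorem result (n d : ℕ) (hn : 2 ≤ n) (hd : 3 ≤ d) :
    (∃ Δ : MvPolynomial (Mon n d) ℂ, IsDiscriminant Δ) ∧
    ∀ Δ : MvPolynomial (Mon n d) ℂ, IsDiscriminant Δ →
      IsGreatest {p : ℤ | ∃ i, IsLeast {q : ℤ | IsPolynomialMultiple Δ i q} p} 1 ∧
      IsLeast {p : ℤ | ∀ i, IsPolynomialMultiple Δ i p} 1 :=
  ⟨exists_discriminant hn hd, fun _ hΔ => exponent hn hd hΔ⟩

end Pool.Agent.Results.MP_ee1e03_al.DiscriminantExponent
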